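import Mathlib

namespace Pool.Agent.H.MP_cd0eb5_co
open Finset

lemma card_fix {n r : ℕ} (a : Fin r ↪ Fin n) (b : Fin r → Fin n) :
    (univ.filter fun π : Equiv.Perm (Fin n) => ∀ i, π (a i) = b i).card ≤ (n - r).factorial := by
  classical
  rcases (univ.filter fun π : Equiv.Perm (Fin n) => ∀ i, π (a i) = b i).eq_empty_or_nonempty
    with h | ⟨π0, h0⟩
  · simp [h]
  have h0 : ∀ i, π0 (a i) = b i := by simpa using h0
  let p : Fin n → Prop := fun x => x ∉ Set.range a
  have hc : Fintype.card (Subtype p) = n - r := by
    have := Fintype.card_subtype_compl (fun x : Fin n => x ∈ Set.range a)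
    simp only [Fintype.card_fin] at this
    rw [show Fintype.card (Subtype p) = _ from by convert this]
    congr 1
    rw [← Nat.card_eq_fintype_card]
    have := Nat.card_range_of_injective a.injective
    rw [Nat.card_eq_fintype_card (α := Fin r), Fintype.card_fin] at this
    exact this
  have e := Fintype.card_congr (Equiv.Perm.subtypeEquivSubtypePerm p)
  rw [Fintype.card_perm, hc] at e
  rw [e, Fintype.card_subtype]
  refine card_le_card_of_injOn (fun π => π0⁻¹ * π) ?_ ?_
  · intro π hπ
    have hπ : ∀ i, π (a i) = b i := by simpa using hπ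
    simp only [coe_filter, mem_univ, true_and, Set.mem_ofPred_eq]
    intro x hx
    obtain ⟨i, rfl⟩ : x ∈ Set.range a := by simpa [p] using hx
    rw [Equiv.Perm.mul_apply, hπ, ← h0]
    simp
  · intro x _ y _ e
    exact mul_left_cancel e

lemma tail {n : ℕ} (P : Finset (Fin n × Fin n)) (r k : ℕ) :
    (univ.filter fun π : Equiv.Perm (Fin n) =>
      k ≤ (univ.filter fun j => (j, π j) ∈ P).card).card * k.descFactorial r ≤
      P.card ^ r * (n - r).factorial := by
  classical
  let E := (Fin r ↪ Fin n)
  let T : Finset (Equiv.Perm (Fin n) × E) := univ.filter fun x => ∀ i, (x.2 i, x.1 (x.2 i)) ∈ P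
  have h1 : (univ.filter fun π : Equiv.Perm (Fin n) =>
      k ≤ (univ.filter fun j => (j, π j) ∈ P).card).card * k.descFactorial r ≤ T.card := by
    have : T.card = ∑ π : Equiv.Perm (Fin n),
        (univ.filter fun g : E => ∀ i, (g i, π (g i)) ∈ P).card := by
      simp only [T, card_filter]
      rw [Fintype.sum_prod_type]
    rw [this, card_filter, sum_mul]
    refine sum_le_sum fun π _ => ?_
    split_ifs with h
    · rw [one_mul]
      let S := univ.filter fun j => (j, π j) ∈ P
      have c1 : Fintype.card (Fin r ↪ S) = S.card.descFactorial r := by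
        rw [Fintype.card_embedding_eq]; simp
      calc k.descFactorial r ≤ S.card.descFactorial r := Nat.descFactorial_le _ h
        _ = (univ : Finset (Fin r ↪ S)).card := by rw [← c1]; rfl
        _ ≤ _ := by
          refine card_le_card_of_injOn (fun g => g.trans (Function.Embedding.subtype _)) ?_ ?_
          · intro g _
            simp only [coe_filter, mem_univ, true_and, Set.mem_ofPred_eq]
            intro i
            exact (mem_filter.1 (g i).2).2
          · intro g _ g' _ e
            ext i
            exact congrArg Fin.val (congrArg (fun h : E => h i) e)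
    · simp
  refine h1.trans ?_
  let φ : Equiv.Perm (Fin n) × E → (Fin r → Fin n × Fin n) := fun x i => (x.2 i, x.1 (x.2 i))
  have h2 := card_le_mul_card_image_of_maps_to (f := φ) (s := T)
    (t := Fintype.piFinset fun _ : Fin r => P) (by
      intro x hx
      simpa [T, φ, Fintype.mem_piFinset] using hx) (n - r).factorial (by
      intro g _
      rcases (T.filter fun x => φ x = g).eq_empty_or_nonempty with h | ⟨x0, h0⟩
      · simp [h]
      have h0 : φ x0 = g := (mem_filter.1 h0).2
      refine le_trans ?_ (card_fix x0.2 (fun i => (g i).2))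
      refine card_le_card_of_injOn (fun x => x.1) ?_ ?_
      · intro x hx
        have hx : φ x = g := (mem_filter.1 hx).2
        simp only [coe_filter, mem_univ, true_and, Set.mem_ofPred_eq]
        intro i
        have a1 := congrFun hx i
        have a2 := congrFun h0 i
        have a3 : x.2 i = x0.2 i := by
          have := congrArg Prod.fst (a1.trans a2.symm)
          simpa [φ] using this
        rw [← a1, ← a3]
      · intro x hx y hy e
        have hx : φ x = g := (mem_filter.1 hx).2
        have hy : φ y = g := (mem_filter.1 hy).2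
        refine Prod.ext e ?_
        ext i
        have := congrArg Prod.fst (congrFun (hx.trans hy.symm) i)
        simpa [φ] using congrArg Fin.val this)
  rw [Fintype.card_piFinset] at h2
  simpa [mul_comm] using h2

/-- near-monotone cell sets -/
def Fam (G W : ℕ) : Finset (Finset (ℕ × ℕ)) :=
  (range (G + 1) ×ˢ range (G + 1)).powerset.filter fun R =>
    ∀ p ∈ R, ∀ p' ∈ R, p.1 + p.2 ≤ p'.1 + p'.2 → p.1 ≤ p'.1 + W

lemma card_Fam (G W : ℕ) : (Fam G W).card ≤ 2 ^ (3 * G + 1 + (2 * G + 1) * (W + 1)) := by
  classical
  let X : Finset (ℕ × ℕ) → ℕ → ℕ := fun R s => (R.filter fun p => p.1 + p.2 ≤ s).sup Prod.fst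
  have Xm : ∀ R, Monotone (X R) := by
    intro R s t h
    refine sup_mono ?_
    intro p hp
    simp only [mem_filter] at hp ⊢
    exact ⟨hp.1, hp.2.trans h⟩
  have mem : ∀ R ∈ Fam G W, (∀ p ∈ R, p.1 ≤ G ∧ p.2 ≤ G) ∧
      ∀ p ∈ R, p.1 ≤ X R (p.1 + p.2) ∧ X R (p.1 + p.2) ≤ p.1 + W := by
    intro R hR
    simp only [Fam, mem_filter, mem_powerset] at hR
    refine ⟨fun p hp => ?_, fun p hp => ⟨?_, ?_⟩⟩
    · have := hR.1 hp
      simp only [mem_product, mem_range] at this
      omega
    · exact le_sup (f := Prod.fst) (mem_filter.2 ⟨hp, le_rfl⟩)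
    · refine Finset.sup_le fun p' hp' => ?_
      exact hR.2 p' (mem_filter.1 hp').1 p hp (mem_filter.1 hp').2
  let U : Finset (ℕ × ℕ) → Fin (2 * G + 1) → ℕ := fun R s => X R s.val + s.val
  have Um : ∀ R, StrictMono (U R) := by
    intro R s t h
    have := Xm R (le_of_lt (show s.val < t.val from h))
    have h' : s.val < t.val := h
    simp only [U]; omega
  let Φ : Finset (ℕ × ℕ) → Finset ℕ × Finset (ℕ × ℕ) := fun R =>
    (univ.image (U R), R.image fun p => (p.1 + p.2, X R (p.1 + p.2) - p.1))
  have := card_le_card_of_injOn (s := Fam G W)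
    (t := (range (3 * G + 1)).powerset ×ˢ (range (2 * G + 1) ×ˢ range (W + 1)).powerset) Φ ?_ ?_
  · rw [card_product, card_powerset, card_powerset, card_product] at this
    simpa [pow_add] using this
  · intro R hR
    have m := mem R hR
    simp only [coe_product, Set.mem_prod, mem_coe, mem_powerset, Φ]
    constructor
    · intro u hu
      obtain ⟨s, -, rfl⟩ := mem_image.1 hu
      have : X R s.val ≤ G := Finset.sup_le fun p hp => (m.1 p (mem_filter.1 hp).1).1
      have := s.2
      simp only [U, mem_range]; omega
    · intro u hu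
      obtain ⟨p, hp, rfl⟩ := mem_image.1 hu
      have := m.1 p hp
      have := m.2 p hp
      simp only [mem_product, mem_range]; omega
  · have key : ∀ R ∈ Fam G W, ∀ R' ∈ Fam G W, Φ R = Φ R' → R ⊆ R' := by
      intro R hR R' hR' e p hp
      have m := mem R hR
      have m' := mem R' hR'
      have e1 : U R = U R' := by
        refine ((Um R).range_inj (Um R')).1 ?_
        have := congrArg (fun x => ((Prod.fst x : Finset ℕ) : Set ℕ)) e
        simpa [Φ] using this
      have e2 : ∀ s, s ≤ 2 * G → X R s = X R' s := by
        intro s hs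
        have := congrFun e1 ⟨s, by omega⟩
        simp only [U] at this; omega
      have e3 := congrArg Prod.snd e
      simp only [Φ] at e3
      have : (p.1 + p.2, X R (p.1 + p.2) - p.1) ∈
          R'.image fun p => (p.1 + p.2, X R' (p.1 + p.2) - p.1) := by
        rw [← e3]; exact mem_image_of_mem _ hp
      obtain ⟨p', hp', e4⟩ := mem_image.1 this
      simp only [Prod.mk.injEq] at e4
      have a1 := m.1 p hp
      have a2 := m.2 p hp
      have a3 := m'.2 p' hp'
      have a4 := e2 (p.1 + p.2) (by omega)
      obtain ⟨e5, e6⟩ := e4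
      rw [e5] at a3 e6
      have : p' = p := Prod.ext (by omega) (by omega)
      exact this ▸ hp'
    intro R hR R' hR' e
    exact Subset.antisymm (key R hR R' hR' e) (key R' hR' R hR e.symm)

end Pool.Agent.H.MP_cd0eb5_co
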