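import Pool.Agent.H.MP_cd0eb5_co.A

namespace Pool.Agent.H.MP_cd0eb5_co
open Finset

lemma boxes {ι : Type} [Fintype ι] (c X : ι → ℕ) :
    ∃ l r : ℕ → ℕ, (∀ i, l (c i) ≤ X i ∧ X i ≤ r (c i)) ∧
      ∀ i, (∃ j, c j = c i ∧ X j = l (c i)) ∧ ∃ j, c j = c i ∧ X j = r (c i) := by
  refine ⟨fun b => sInf (X '' {j | c j = b}), fun b => sSup (X '' {j | c j = b}), ?_, ?_⟩
  · intro i
    exact ⟨Nat.sInf_le ⟨i, rfl, rfl⟩, le_csSup (Set.toFinite _).bddAbove ⟨i, rfl, rfl⟩⟩
  · intro i
    have ne : (X '' {j | c j = c i}).Nonempty := ⟨_, i, rfl, rfl⟩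
    exact ⟨Nat.sInf_mem ne, Nat.sSup_mem ne (Set.toFinite _).bddAbove⟩

lemma blocks {ι : Type} [Fintype ι] (c X Y : ι → ℕ) (G E m : ℕ)
    (hX : ∀ i, X i ≤ G) (hY : ∀ i, Y i ≤ G)
    (hc : ∀ i j, c i < c j → X i ≤ X j ∧ Y i ≤ Y j)
    (hm : ∀ b, (univ.filter fun i => c i = b).card ≤ m) :
    ∃ (S : Finset ι) (β : ℕ), Fintype.card ι ≤ m * β + S.card ∧
      S.image (fun i => (X i, Y i)) ∈ Fam G (4 * E) ∧
      4 * E ^ 2 * β + (S.image fun i => (X i, Y i)).card ≤ 2 * E * G + 4 * G + 1 := by
  classical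
  obtain ⟨l, r, h1, h2⟩ := boxes c X
  obtain ⟨u, t, h3, h4⟩ := boxes c Y
  let d : ℕ → ℕ := fun b => (r b - l b) + (t b - u b)
  let Bs := univ.image c
  have ch : ∀ b ∈ Bs, ∀ b' ∈ Bs, b < b' → r b ≤ l b' ∧ t b ≤ u b' := by
    intro b hb b' hb' h
    obtain ⟨i, -, rfl⟩ := mem_image.1 hb
    obtain ⟨j, -, rfl⟩ := mem_image.1 hb'
    obtain ⟨a1, e1, f1⟩ := (h2 i).2
    obtain ⟨a2, e2, f2⟩ := (h2 j).1
    obtain ⟨a3, e3, f3⟩ := (h4 i).2
    obtain ⟨a4, e4, f4⟩ := (h4 j).1
    have := (hc a1 a2 (by omega)).1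
    have := (hc a3 a4 (by omega)).2
    omega
  have bd : ∀ b ∈ Bs, l b ≤ r b ∧ r b ≤ G ∧ u b ≤ t b ∧ t b ≤ G := by
    intro b hb
    obtain ⟨i, -, rfl⟩ := mem_image.1 hb
    obtain ⟨a1, e1, f1⟩ := (h2 i).2
    obtain ⟨a3, e3, f3⟩ := (h4 i).2
    have := h1 i
    have := h3 i
    have := hX a1
    have := hY a3
    omega
  have sd : ∑ b ∈ Bs, d b ≤ 2 * G := by
    have e : ∑ b ∈ Bs, d b = (Bs.biUnion fun b => Ico (l b + u b) (r b + t b)).card := by
      rw [card_biUnion]
      · refine sum_congr rfl fun b hb => ?_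
        have := bd b hb
        simp only [Nat.card_Ico, d]; omega
      · intro b hb b' hb' hne
        simp only [Function.onFun]
        rw [disjoint_left]
        intro s a1 a2
        simp only [mem_Ico] at a1 a2
        rcases lt_or_gt_of_ne hne with h | h
        · have := ch b hb b' hb' h; omega
        · have := ch b' hb' b hb h; omega
    rw [e, ← card_range (2 * G)]
    refine card_le_card fun s hs => ?_
    obtain ⟨b, hb, h⟩ := mem_biUnion.1 hs
    have := bd b hb
    simp only [mem_Ico, mem_range] at h ⊢; omega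
  let Big := Bs.filter fun b => 4 * E ≤ d b
  let Sm := Bs.filter fun b => ¬ 4 * E ≤ d b
  refine ⟨univ.filter fun i => ¬ 4 * E ≤ d (c i), Big.card, ?_, ?_, ?_⟩
  · have e := card_filter_add_card_filter_not (s := (univ : Finset ι))
      (fun i => 4 * E ≤ d (c i))
    have := card_le_mul_card_image_of_maps_to (f := c)
      (s := univ.filter fun i => 4 * E ≤ d (c i)) (t := Big) (by
        intro i hi
        exact mem_filter.2 ⟨mem_image_of_mem _ (mem_univ _), (mem_filter.1 hi).2⟩) m (by
        intro b _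
        refine le_trans (card_le_card ?_) (hm b)
        intro i hi
        exact mem_filter.2 ⟨mem_univ _, (mem_filter.1 hi).2⟩)
    rw [card_univ] at e
    omega
  · simp only [Fam, mem_filter, mem_powerset]
    constructor
    · intro p hp
      obtain ⟨i, -, rfl⟩ := mem_image.1 hp
      have := hX i
      have := hY i
      simp only [mem_product, mem_range]; omega
    · intro p hp p' hp' h
      obtain ⟨i, hi, rfl⟩ := mem_image.1 hp
      obtain ⟨j, -, rfl⟩ := mem_image.1 hp'
      have hi := (mem_filter.1 hi).2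
      simp only [d] at hi h ⊢
      rcases lt_trichotomy (c i) (c j) with e | e | e
      · have := hc i j e; omega
      · have := h1 i
        have := h1 j
        rw [← e] at this
        omega
      · have := hc j i e; omega
  · have c1 : (Sm.image fun b => (l b, u b)).card ≤ 2 * G + 1 := by
      rw [← card_range (2 * G + 1)]
      refine card_le_card_of_injOn (fun p => p.1 + p.2) ?_ ?_
      · intro p hp
        obtain ⟨b, hb, rfl⟩ := mem_image.1 (mem_coe.1 hp)
        have := bd b (mem_filter.1 hb).1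
        simp only [coe_range, Set.mem_Iio]; omega
      · intro p hp p' hp' e
        obtain ⟨b, hb, rfl⟩ := mem_image.1 (mem_coe.1 hp)
        obtain ⟨b', hb', rfl⟩ := mem_image.1 (mem_coe.1 hp')
        have hb := (mem_filter.1 hb).1
        have hb' := (mem_filter.1 hb').1
        have := bd b hb
        have := bd b' hb'
        simp only at e
        rcases lt_trichotomy b b' with h | h | h
        · have := ch b hb b' hb' h
          exact Prod.ext (by simp only; omega) (by simp only; omega)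
        · rw [h]
        · have := ch b' hb' b hb h
          exact Prod.ext (by simp only; omega) (by simp only; omega)
    have c2 : ((univ.filter fun i => ¬ 4 * E ≤ d (c i)).image fun i => (X i, Y i)) ⊆
        (Sm.image fun b => (l b, u b)) ∪
          Sm.biUnion fun b => (Icc (l b) (r b) ×ˢ Icc (u b) (t b)).erase (l b, u b) := by
      intro p hp
      obtain ⟨i, hi, rfl⟩ := mem_image.1 hp
      have hb : c i ∈ Sm := mem_filter.2 ⟨mem_image_of_mem _ (mem_univ _), (mem_filter.1 hi).2⟩
      by_cases e : (X i, Y i) = (l (c i), u (c i))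
      · exact mem_union_left _ (mem_image.2 ⟨_, hb, e.symm⟩)
      · refine mem_union_right _ (mem_biUnion.2 ⟨_, hb, mem_erase.2 ⟨e, ?_⟩⟩)
        simp only [mem_product, mem_Icc]
        exact ⟨h1 i, h3 i⟩
    have c3 : (Sm.biUnion fun b =>
        (Icc (l b) (r b) ×ˢ Icc (u b) (t b)).erase (l b, u b)).card ≤
          ∑ b ∈ Sm, (E + 1) * d b := by
      refine card_biUnion_le.trans (sum_le_sum fun b hb => ?_)
      have a := bd b (mem_filter.1 hb).1
      have a2 := (mem_filter.1 hb).2
      rw [card_erase_of_mem (by simp [a.1, a.2.2.1]), card_product, Nat.card_Icc, Nat.card_Icc]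
      simp only [d] at a2 ⊢
      obtain ⟨x, hx⟩ := Nat.exists_eq_add_of_le a.1
      obtain ⟨y, hy⟩ := Nat.exists_eq_add_of_le a.2.2.1
      have e1 : r b + 1 - l b = x + 1 := by omega
      have e2 : t b + 1 - u b = y + 1 := by omega
      have e3 : r b - l b = x := by omega
      have e4 : t b - u b = y := by omega
      rw [e3, e4] at a2
      rw [e1, e2, e3, e4]
      have : x * y ≤ E * (x + y) := by
        have a3 : x + y ≤ 4 * E := by omega
        have a4 : 4 * (x * y) ≤ (x + y) * (x + y) := by nlinarith [sq_nonneg ((x : ℤ) - y)]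
        nlinarith [Nat.mul_le_mul_right (x + y) a3]
      have e5 : (x + 1) * (y + 1) - 1 = x * y + (x + y) := by
        rw [show (x + 1) * (y + 1) = x * y + (x + y) + 1 by ring]; omega
      rw [e5]; nlinarith
    have c4 : 4 * E ^ 2 * Big.card ≤ ∑ b ∈ Big, (E + 1) * d b := by
      rw [mul_comm, ← smul_eq_mul]
      refine card_nsmul_le_sum _ _ _ fun b hb => ?_
      have := (mem_filter.1 hb).2
      nlinarith
    have c5 : ∑ b ∈ Big, (E + 1) * d b + ∑ b ∈ Sm, (E + 1) * d b ≤ (E + 1) * (2 * G) := by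
      rw [sum_filter_add_sum_filter_not, ← mul_sum]
      exact Nat.mul_le_mul_left _ sd
    have c6 := (card_le_card c2).trans (card_union_le _ _)
    nlinarith

end Pool.Agent.H.MP_cd0eb5_co
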