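import Mathlib

namespace Pool.Agent.H.MP_cd0eb5_co

/-- `π` contains the pattern `σ`: some subsequence of `π` has the relative order of `σ`. -/
def Contains {n k : ℕ} (π : Equiv.Perm (Fin n)) (σ : Equiv.Perm (Fin k)) : Prop :=
  ∃ f : Fin k → Fin n, StrictMono f ∧ ∀ i j, σ i < σ j ↔ π (f i) < π (f j)

/-- The permutations of length `n` containing no element of `B`. -/
def Av (B : Set (Σ k : ℕ, Equiv.Perm (Fin k))) (n : ℕ) : Set (Equiv.Perm (Fin n)) :=
  {π | ∀ β ∈ B, ¬ Contains π β.2}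

/-- The largest size of a subsequence of `π` whose pattern lies in `Av B`. -/
noncomputable def L (B : Set (Σ k : ℕ, Equiv.Perm (Fin k))) {n : ℕ}
    (π : Equiv.Perm (Fin n)) : ℕ :=
  sSup {k | ∃ σ ∈ Av B k, Contains π σ}

/-- The sequence `|S_n ∩ Av B| ^ (1/n)`. -/
noncomputable def growth (B : Set (Σ k : ℕ, Equiv.Perm (Fin k))) (n : ℕ) : ℝ :=
  ((Av B n).ncard : ℝ) ^ ((1 : ℝ) / n)

/-- The sequence `E[L(Π_n)] / √n` for `Π_n` uniform on `S_n`. -/
noncomputable def meanL (B : Set (Σ k : ℕ, Equiv.Perm (Fin k))) (n : ℕ) : ℝ :=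
  ((∑ π : Equiv.Perm (Fin n), (L B π : ℝ)) / (n.factorial : ℝ)) / Real.sqrt n

end Pool.Agent.H.MP_cd0eb5_co
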