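import Pool.Agent.H.MP_cd0eb5_co.B
import Pool.Agent.H.MP_cd0eb5_co.D

namespace Pool.Agent.H.MP_cd0eb5_co
open Finset

def Blocky (m : ℕ) {k : ℕ} (σ : Equiv.Perm (Fin k)) : Prop :=
  ∃ c : Fin k → ℕ, (∀ i j, c i < c j → i < j ∧ σ i < σ j) ∧
    ∀ b, (univ.filter fun i => c i = b).card ≤ m

def BB (m : ℕ) : Set (Σ k : ℕ, Equiv.Perm (Fin k)) := {β | ¬ Blocky m β.2}

lemma blocky_contains {m n k : ℕ} {π : Equiv.Perm (Fin n)} {σ : Equiv.Perm (Fin k)}
    (h : Blocky m π) (hc : Contains π σ) : Blocky m σ := by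
  obtain ⟨c, h1, h2⟩ := h
  obtain ⟨f, hf, h3⟩ := hc
  refine ⟨fun i => c (f i), fun i j h => ?_, fun b => le_trans ?_ (h2 b)⟩
  · exact ⟨hf.lt_iff_lt.1 (h1 _ _ h).1, (h3 i j).2 (h1 _ _ h).2⟩
  · refine card_le_card_of_injOn f ?_ hf.injective.injOn
    intro i hi
    simpa using hi

lemma av_iff {m n : ℕ} {π : Equiv.Perm (Fin n)} : π ∈ Av (BB m) n ↔ Blocky m π := by
  constructor
  · intro h
    by_contra hb
    exact h ⟨n, π⟩ hb ⟨id, strictMono_id, fun _ _ => Iff.rfl⟩
  · intro h β hβ hc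
    exact hβ (blocky_contains h hc)

lemma BB_ne (m : ℕ) : (BB m).Nonempty := by
  refine ⟨⟨m + 1, Fin.revPerm⟩, ?_⟩
  rintro ⟨c, h1, h2⟩
  have e : ∀ i, c i = c 0 := by
    intro i
    rcases lt_trichotomy (c i) (c 0) with h | h | h
    · exact absurd (h1 _ _ h).1 (Fin.not_lt_zero i)
    · exact h
    · have := h1 _ _ h
      simp only [Fin.revPerm_apply, Fin.rev_lt_rev] at this
      exact absurd this.2 (Fin.not_lt_zero i)
  have := h2 (c 0)
  rw [filter_true_of_mem (fun i _ => e i)] at this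
  simp at this

lemma lower (m t : ℕ) : m.factorial ^ t ≤ (Av (BB m) (t * m)).ncard := by
  classical
  let e : Fin t × Fin m ≃ Fin (t * m) := finProdFinEquiv
  let φ : (Fin t → Equiv.Perm (Fin m)) → Equiv.Perm (Fin (t * m)) := fun p =>
    e.permCongr (Equiv.prodCongrRight p)
  have hφ : ∀ p a b, φ p (e (a, b)) = e (a, p a b) := by
    intro p a b
    simp [φ]
  have lt : ∀ (a a' : Fin t) (b b' : Fin m), a.val < a'.val → e (a, b) < e (a', b') := by
    intro a a' b b' h
    have := b.2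
    have h2 : m * (a.val + 1) ≤ m * a'.val := Nat.mul_le_mul_left _ h
    show b.val + m * a.val < b'.val + m * a'.val
    rw [mul_add] at h2
    omega
  have inj : Function.Injective φ := by
    intro p p' h
    funext a
    ext b
    have := hφ p a b
    rw [h, hφ] at this
    have := e.injective this
    simp only [Prod.mk.injEq, true_and] at this
    rw [this]
  have sub : Set.range φ ⊆ Av (BB m) (t * m) := by
    rintro _ ⟨p, rfl⟩
    refine av_iff.2 ⟨fun i => (e.symm i).1.val, ?_, ?_⟩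
    · intro i j h
      obtain ⟨⟨a, b⟩, rfl⟩ := e.surjective i
      obtain ⟨⟨a', b'⟩, rfl⟩ := e.surjective j
      simp only [Equiv.symm_apply_apply] at h
      rw [hφ, hφ]
      exact ⟨lt _ _ _ _ h, lt _ _ _ _ h⟩
    · intro b
      refine le_trans (card_le_card_of_injOn (t := (univ : Finset (Fin m)))
        (fun i => (e.symm i).2) (fun _ _ => by simp) ?_) (by simp)
      intro i hi j hj h
      have hi := (mem_filter.1 (mem_coe.1 hi)).2
      have hj := (mem_filter.1 (mem_coe.1 hj)).2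
      exact e.symm.injective (Prod.ext (Fin.ext (hi.trans hj.symm)) h)
  have := Set.ncard_le_ncard sub (Set.toFinite _)
  rw [Set.ncard_range_of_injective inj, Nat.card_eq_fintype_card, Fintype.card_fun,
    Fintype.card_perm, Fintype.card_fin, Fintype.card_fin] at this
  exact this

def PP (n q : ℕ) (R : Finset (ℕ × ℕ)) : Finset (Fin n × Fin n) :=
  univ.filter fun x => (x.1.val / q, x.2.val / q) ∈ R

lemma card_PP (n q : ℕ) (hq : 0 < q) (R : Finset (ℕ × ℕ)) : (PP n q R).card ≤ q * q * R.card := by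
  refine card_le_mul_card_image_of_maps_to (f := fun x : Fin n × Fin n => (x.1.val / q, x.2.val / q))
    (fun x hx => (mem_filter.1 hx).2) _ ?_
  intro p _
  rw [show q * q = (range q ×ˢ range q).card by simp]
  refine card_le_card_of_injOn (fun x => (x.1.val % q, x.2.val % q)) ?_ ?_
  · intro x _
    simp [Nat.mod_lt _ hq]
  · intro x hx y hy h
    have hx := (mem_filter.1 (mem_coe.1 hx)).2
    have hy := (mem_filter.1 (mem_coe.1 hy)).2
    have e := hx.trans hy.symm
    simp only [Prod.mk.injEq] at e h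
    refine Prod.ext (Fin.ext ?_) (Fin.ext ?_)
    · rw [← Nat.div_add_mod x.1.val q, ← Nat.div_add_mod y.1.val q, e.1, h.1]
    · rw [← Nat.div_add_mod x.2.val q, ← Nat.div_add_mod y.2.val q, e.2, h.2]

def bad (n q r : ℕ) (R : Finset (ℕ × ℕ)) : Finset (Equiv.Perm (Fin n)) :=
  univ.filter fun π => r + 10200 * R.card ≤ (univ.filter fun j => (j, π j) ∈ PP n q R).card

lemma card_bad (n q g : ℕ) (hq : 0 < q) (hq2 : q * q ≤ 10000 * n) (hr : 102 * (70 * g) ≤ n)
    (R : Finset (ℕ × ℕ)) : (bad n q (70 * g) R).card * 2 ^ g ≤ n.factorial := by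
  set r := 70 * g with hrr
  have h1 := tail (PP n q R) r (r + 10200 * R.card)
  have h2 := Nat.pow_sub_le_descFactorial (r + 10200 * R.card) r
  have h3 := Nat.pow_sub_le_descFactorial n r
  have h4 := Nat.factorial_mul_descFactorial (show r ≤ n by omega)
  have h5 := card_PP n q hq R
  rw [show r + 10200 * R.card + 1 - r = 10200 * R.card + 1 by omega] at h2
  obtain ⟨y, hy⟩ : ∃ y, n = r + y := ⟨n - r, by omega⟩
  have e1 : n + 1 - r = y + 1 := by omega
  rw [e1] at h3
  set Z := (10200 * R.card + 1) * (y + 1) with hZ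
  have Zp : 0 < Z := by positivity
  have h6 : 101 * (PP n q R).card ≤ 100 * Z := by
    have : (PP n q R).card ≤ 10000 * n * R.card := h5.trans (Nat.mul_le_mul_right _ hq2)
    have h7 : 101 * n ≤ 102 * y := by omega
    have h8 := Nat.mul_le_mul_right R.card h7
    nlinarith
  have h7 : (bad n q r R).card * Z ^ r ≤ (PP n q R).card ^ r * n.factorial := by
    calc (bad n q r R).card * Z ^ r
        = ((bad n q r R).card * (10200 * R.card + 1) ^ r) * (y + 1) ^ r := by
          rw [hZ, mul_pow]; ring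
      _ ≤ ((PP n q R).card ^ r * (n - r).factorial) * n.descFactorial r :=
          Nat.mul_le_mul ((Nat.mul_le_mul_left _ h2).trans h1) h3
      _ = _ := by rw [mul_assoc, h4]
  have h8 : 2 ^ g * 100 ^ r ≤ 101 ^ r := by
    rw [hrr, pow_mul, pow_mul, ← mul_pow]
    exact Nat.pow_le_pow_left (by norm_num) _
  have h9 : (101 * (PP n q R).card) ^ r ≤ (100 * Z) ^ r := Nat.pow_le_pow_left h6 _
  rw [mul_pow, mul_pow] at h9
  refine Nat.le_of_mul_le_mul_right (c := 100 ^ r * Z ^ r) ?_ (by positivity)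
  calc (bad n q r R).card * 2 ^ g * (100 ^ r * Z ^ r)
      = (2 ^ g * 100 ^ r) * ((bad n q r R).card * Z ^ r) := by ring
    _ ≤ 101 ^ r * ((PP n q R).card ^ r * n.factorial) := Nat.mul_le_mul h8 h7
    _ = (101 ^ r * (PP n q R).card ^ r) * n.factorial := by ring
    _ ≤ (100 ^ r * Z ^ r) * n.factorial := Nat.mul_le_mul_right _ h9
    _ = _ := by ring

lemma good (m n q r : ℕ) (hm : m = 10000 * 10000) (π : Equiv.Perm (Fin n))
    (h : ∀ R ∈ Fam (n / q) 200, π ∉ bad n q r R) :
    L (BB m) π ≤ r + 10200 * (104 * (n / q) + 1) := by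
  refine csSup_le' ?_
  rintro k ⟨σ, hσ, f, hf, h3⟩
  obtain ⟨c, h1, h2⟩ := av_iff.1 hσ
  obtain ⟨S, β, a1, a2, a3⟩ := blocks c (fun i => (f i).val / q) (fun i => (π (f i)).val / q)
    (n / q) 50 m (fun i => Nat.div_le_div_right (f i).2.le)
    (fun i => Nat.div_le_div_right (π (f i)).2.le)
    (fun i j h => ⟨Nat.div_le_div_right (hf (h1 i j h).1).le,
      Nat.div_le_div_right ((h3 i j).1 (h1 i j h).2).le⟩) h2
  have a4 := h _ a2
  simp only [bad, mem_filter, mem_univ, true_and, not_le] at a4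
  have a5 : S.card ≤ (univ.filter fun j => (j, π j) ∈ PP n q
      (S.image fun i => ((f i).val / q, (π (f i)).val / q))).card := by
    refine card_le_card_of_injOn f ?_ hf.injective.injOn
    intro i hi
    simp only [coe_filter, mem_univ, true_and, Set.mem_ofPred_eq, PP, mem_filter]
    exact mem_image_of_mem (fun i => ((f i).val / q, (π (f i)).val / q)) hi
  rw [Fintype.card_fin, hm] at a1
  omega

lemma L_le {B} {n : ℕ} (π : Equiv.Perm (Fin n)) : L B π ≤ n := by
  refine csSup_le' ?_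
  rintro k ⟨σ, -, f, hf, -⟩
  simpa using Fintype.card_le_of_injective f hf.injective

lemma upper (m n : ℕ) (hm : m = 10000 * 10000) (hn : 100000 * 100000 ≤ n) :
    ∑ π : Equiv.Perm (Fin n), L (BB m) π ≤ 11349 * n.sqrt * n.factorial := by
  classical
  set t := n.sqrt with ht
  have t1 : 100000 ≤ t := Nat.le_sqrt.2 hn
  have t2 : t * t ≤ n := Nat.sqrt_le n
  have t3 : n < (t + 1) * (t + 1) := Nat.lt_succ_sqrt n
  set G := n / (100 * t) with hG
  have g1 : G * (100 * t) ≤ n := Nat.div_mul_le_self _ _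
  have g2 : n < (G + 1) * (100 * t) := by
    rw [mul_comm]; exact Nat.lt_mul_div_succ n (by omega)
  have g3 : 99 * G ≤ t := by
    by_contra hc
    have : t + 1 ≤ 99 * G := by omega
    nlinarith [Nat.mul_le_mul_right t this]
  have g4 : 1 ≤ G := by
    by_contra hc
    have : G = 0 := by omega
    rw [this] at g2
    nlinarith
  let Bad := (Fam G 200).biUnion fun R => bad n (100 * t) (70 * (608 * G)) R
  have b1 : Bad.card * 2 ^ G ≤ n.factorial := by
    have c1 : Bad.card * 2 ^ (608 * G) ≤ (Fam G 200).card * n.factorial := by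
      calc Bad.card * 2 ^ (608 * G)
          ≤ (∑ R ∈ Fam G 200, (bad n (100 * t) (70 * (608 * G)) R).card) * 2 ^ (608 * G) :=
            Nat.mul_le_mul_right _ card_biUnion_le
        _ ≤ _ := by
          rw [sum_mul]
          exact sum_le_card_nsmul _ _ _ fun R _ =>
            card_bad n (100 * t) (608 * G) (by omega) (by nlinarith) (by nlinarith) R
    have c2 : (Fam G 200).card ≤ 2 ^ (607 * G) :=
      (card_Fam G 200).trans (Nat.pow_le_pow_right (by norm_num) (by omega))
    refine Nat.le_of_mul_le_mul_right (c := 2 ^ (607 * G)) ?_ (by positivity)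
    calc Bad.card * 2 ^ G * 2 ^ (607 * G) = Bad.card * 2 ^ (608 * G) := by
          rw [mul_assoc, ← pow_add]; congr 2; ring
      _ ≤ 2 ^ (607 * G) * n.factorial := c1.trans (Nat.mul_le_mul_right _ c2)
      _ = _ := by ring
  have b2 : n * Bad.card ≤ 100 * t * n.factorial := by
    have : G + 1 ≤ 2 ^ G := Nat.lt_two_pow_self
    calc n * Bad.card ≤ (2 ^ G * (100 * t)) * Bad.card :=
          Nat.mul_le_mul_right _ (g2.le.trans (Nat.mul_le_mul_right _ this))
      _ = 100 * t * (Bad.card * 2 ^ G) := by ring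
      _ ≤ _ := Nat.mul_le_mul_left _ b1
  have b3 : ∀ π : Equiv.Perm (Fin n), L (BB m) π ≤ 11249 * t + if π ∈ Bad then n else 0 := by
    intro π
    split_ifs with h
    · have := L_le (B := BB m) π; omega
    · have := good m n (100 * t) (70 * (608 * G)) hm π
        (fun R hR hb => h (mem_biUnion.2 ⟨R, hR, hb⟩))
      rw [← hG] at this
      omega
  refine (sum_le_sum fun π _ => b3 π).trans ?_
  rw [sum_add_distrib, sum_const, card_univ, Fintype.card_perm, Fintype.card_fin, smul_eq_mul,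
    ← sum_filter, sum_const, smul_eq_mul, filter_mem_eq_inter, univ_inter]
  nlinarith

lemma mean_le (m : ℕ) (hm : m = 10000 * 10000) :
    ∀ᶠ n in Filter.atTop, meanL (BB m) n ≤ 11349 := by
  refine Filter.eventually_atTop.2 ⟨100000 * 100000, fun n hn => ?_⟩
  have h := upper m n hm hn
  have h' : (∑ π : Equiv.Perm (Fin n), (L (BB m) π : ℝ)) ≤ 11349 * (n.sqrt : ℝ) * n.factorial := by
    exact_mod_cast h
  have p1 : (0 : ℝ) < n.factorial := by exact_mod_cast n.factorial_pos
  have p2 : 0 < Real.sqrt n := Real.sqrt_pos.2 (by exact_mod_cast (by omega : 0 < n))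
  have p3 : (n.sqrt : ℝ) ≤ Real.sqrt n := Real.nat_sqrt_le_real_sqrt
  unfold meanL
  rw [div_le_iff₀ p2, div_le_iff₀ p1]
  nlinarith

lemma growth_ge (m : ℕ) (hm : 0 < m) :
    ∃ᶠ n in Filter.atTop, (m : ℝ) / Real.exp 1 ≤ growth (BB m) n := by
  refine Filter.frequently_atTop.2 fun N => ⟨(N + 1) * m, by nlinarith, ?_⟩
  have h : ((m.factorial : ℝ)) ^ (N + 1) ≤ ((Av (BB m) ((N + 1) * m)).ncard : ℝ) := by
    exact_mod_cast lower m (N + 1)
  have p1 : (0 : ℝ) < m.factorial := by exact_mod_cast m.factorial_pos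
  have h2 : ((m : ℝ) / Real.exp 1) ^ m ≤ m.factorial := by
    have := Real.pow_div_factorial_le_exp (m : ℝ) (by positivity) m
    rw [div_pow, ← Real.exp_nat_mul, mul_one, div_le_iff₀ (Real.exp_pos _)]
    rw [div_le_iff₀ p1] at this
    linarith
  have h3 : ((m : ℝ) / Real.exp 1) ^ ((N + 1) * m) ≤ ((Av (BB m) ((N + 1) * m)).ncard : ℝ) := by
    rw [mul_comm (N + 1) m, pow_mul]
    rw [mul_comm m (N + 1)]
    exact (pow_le_pow_left₀ (by positivity) h2 _).trans h
  unfold growth
  have h4 := Real.rpow_le_rpow (by positivity) h3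
    (show (0 : ℝ) ≤ 1 / (((N + 1) * m : ℕ) : ℝ) by positivity)
  rwa [one_div, Real.pow_rpow_inv_natCast (by positivity) (by positivity), ← one_div] at h4

end Pool.Agent.H.MP_cd0eb5_co
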